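import Pool.Agent.KS6_69.CB.Weights

/-!
# Calkin algebras from conditional bases, weighted products and decompositions into subalgebras

The definitions used in the statement are in `Pool.Agent.KS6_69.CB.CalkinDef` (`compactIdeal`),
`Pool.Agent.KS6_69.CB.Unit` (`CalkinIsoMul`, `unitMul`), `Pool.Agent.KS6_69.CB.Cond` (`HasFDD`,
`IsWeightedProduct`), `Pool.Agent.KS6_69.CB.Lattice` (`NonzeroClosedIdeals`) and
`Pool.Agent.KS6_69.CB.Weights` (`IsCalkinWithFDD`, `IsCalkinWithIdeals`, `UnitizationIsCalkin`,
`wterm`, `SubalgebraFDD`).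
-/

set_option autoImplicit false

namespace Pool.Agent.Results.MP_02927d_an.ConditionalBases

open Pool.Agent.KS6_69.CB

universe u

/-- Let `U` be a Banach space over `𝕜`. (1) Let `(b s)` be a Schauder basis of `U`, unconditional or
not, and `w` a sequence of scalars such that the series `∑ w_s x_s y_s b_s` converges for all `x, y`; let `f x y` be
its sum. The unitization of `U` with the product `f` is the Calkin algebra of a Banach space `X`
with a finite-dimensional decomposition; if no `w_s` is zero, then the lattice of the nonzero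
closed two-sided ideals of `L(X)` is anti-isomorphic to the lattice of the closed subsets of the
one-point compactification of `ℕ`.
(2) If the basis is unconditional, then the weights in question are exactly those with
`|w_s| ≤ C ‖b_s‖` for some `C`.
(3) Q1: normalized unconditional bases and `w_s = 1`.
(4) If `U` has a bounded associative product, commutative or not, and a finite-dimensional
decomposition whose subspaces are subalgebras, then the unitization of `U` is a Calkin algebra, and
so is `U` if it has an identity. -/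
theorem result (𝕜 : Type) [RCLike 𝕜] (U : Type u) [NormedAddCommGroup U] [NormedSpace 𝕜 U]
    [CompleteSpace U] :
    (∀ (b : SchauderBasis 𝕜 U) (w : ℕ → 𝕜) (f : U → U → U), IsWeightedProduct b w f →
      UnitizationIsCalkin 𝕜 U f (∀ s, w s ≠ 0)) ∧
    (∀ (b : UnconditionalSchauderBasis ℕ 𝕜 U) (w : ℕ → 𝕜),
      ((∀ x y, Summable (wterm b w x y)) ↔ ∃ C : ℝ, ∀ s, ‖w s‖ ≤ C * ‖b s‖) ∧
      ((∀ x y, Summable (wterm b w x y)) →
        UnitizationIsCalkin 𝕜 U (fun x y => ∑' s, wterm b w x y s) (∀ s, w s ≠ 0))) ∧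
    (∀ b : UnconditionalSchauderBasis ℕ 𝕜 U, (∀ s, ‖b s‖ = 1) →
      ∃ m : U → U → U, (∀ x y, HasSum (fun s => (b.coord s x * b.coord s y) • b s) (m x y)) ∧
        IsCalkinWithIdeals 𝕜 (U × 𝕜) (unitMul m)) ∧
    (∀ (m : U →L[𝕜] U →L[𝕜] U) (p : ℕ → (U →L[𝕜] U)),
      (∀ a b c, m (m a b) c = m a (m b c)) → SubalgebraFDD m p →
      IsCalkinWithFDD 𝕜 (U × 𝕜) (unitMul fun a b => m a b) ∧
      ((∃ e, ∀ a, m e a = a ∧ m a e = a) → IsCalkinWithFDD 𝕜 U (fun a b => m a b))) := by
  refine ⟨fun b w f hf => weighted b w f hf, fun b w => ⟨(summable_iff b w).symm,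
    fun hw => unconditional b w hw⟩, fun b hb => ?_, fun m p hm hp => general m p hm hp⟩
  have h1 := (summable_iff b (fun _ => (1 : 𝕜))).1 ⟨1, fun s => by rw [hb, norm_one, mul_one]⟩
  have h2 := (unconditional b (fun _ => (1 : 𝕜)) h1).2 fun _ => one_ne_zero
  simp only [one_mul] at h1 h2
  exact ⟨_, fun x y => (h1 x y).hasSum, h2⟩

end Pool.Agent.Results.MP_02927d_an.ConditionalBases
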